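import Pool.Agent.H.MP_da2ee6_an.C

open scoped ZeroAtInfty

namespace Pool.Agent.Results.MP_da2ee6_an.Dense

theorem result :
    ∀ (A : Type) [NonUnitalNormedCommRing A] [NormedSpace ℂ A] [IsScalarTower ℂ A A]
      [SMulCommClass ℂ A A] [CompleteSpace A],
      (∀ J : Ideal (Unitization ℂ A), (∀ u ∈ J, u.fst = 0) →
        IsClosed {y : A | (y : Unitization ℂ A) ∈ J} → (∃ x : A, (x : Unitization ℂ A) ∉ J) →
        ∀ x : A, spectralRadius ℂ (Ideal.Quotient.mk J (x : Unitization ℂ A)) =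
          ⨅ (y : A) (_ : (y : Unitization ℂ A) ∈ J),
            spectralRadius ℂ ((x + y : A) : Unitization ℂ A)) →
      ∀ (g : C₀(WeakDual.characterSpace ℂ A, ℂ)) (ε : ℝ), 0 < ε →
        ∃ a : A, ∀ φ : WeakDual.characterSpace ℂ A, ‖φ a - g φ‖ ≤ ε := by
  intro A _ _ _ _ _ h g ε hε
  exact Pool.Agent.H.MP_da2ee6_an.main h g ε hε

end Pool.Agent.Results.MP_da2ee6_an.Dense
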